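import Pool.Agent.R289.NH7

set_option autoImplicit false

/-!
# Scaled unitary operators without eigenvalues are strongly numerically hypercyclic
-/

namespace Pool.Agent.Results.MP_f50dde_an.ScaledUnitary

open scoped InnerProductSpace

universe u

/-- Numerical hypercyclicity: some pair `(x, f)` with `‖x‖ = ‖f‖ = f x = 1` has
`{f (Tⁿ x) : n ≥ 0}` dense in `ℂ`. -/
def NumericallyHypercyclic {X : Type u} [NormedAddCommGroup X] [NormedSpace ℂ X]
    (T : X →L[ℂ] X) : Prop :=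
  ∃ (x : X) (f : X →L[ℂ] ℂ), ‖x‖ = 1 ∧ ‖f‖ = 1 ∧ f x = 1 ∧
    Dense (Set.range fun n : ℕ => f ((T ^ n) x))

/-- Strong numerical hypercyclicity: every operator similar to `T`, on any Banach space, is
numerically hypercyclic. -/
def StronglyNumericallyHypercyclic {X : Type u} [NormedAddCommGroup X] [NormedSpace ℂ X]
    (T : X →L[ℂ] X) : Prop :=
  ∀ (Y : Type u) [NormedAddCommGroup Y] [NormedSpace ℂ Y] [CompleteSpace Y] (S : Y →L[ℂ] Y)
    (J : X ≃L[ℂ] Y), (∀ x, J.symm (S (J x)) = T x) → NumericallyHypercyclic S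

/-- **Main result.** Let `T` be a unitary operator on a complex Hilbert space with infinite
spectrum and without eigenvalues. Then `r T` is strongly numerically hypercyclic for every real
`r > 1`. -/
theorem result (H : Type u) [NormedAddCommGroup H] [InnerProductSpace ℂ H] [CompleteSpace H]
    (T : H →L[ℂ] H) (hT : T ∈ unitary (H →L[ℂ] H)) (hspec : (spectrum ℂ T).Infinite)
    (hne : ∀ (μ : ℂ) (v : H), T v = μ • v → v = 0) (r : ℝ) (hr : 1 < r) :
    StronglyNumericallyHypercyclic ((r : ℂ) • T) := by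
  have hnt : Nontrivial H := by
    by_contra hcon
    rw [not_nontrivial_iff_subsingleton] at hcon
    apply hspec
    have hsub : Subsingleton (H →L[ℂ] H) := ⟨fun a b => by ext v; exact Subsingleton.elim _ _⟩
    rw [spectrum.of_subsingleton]
    exact Set.finite_empty
  have hU : R289.NH.UNE T := ⟨Unitary.star_mul_self_of_mem hT, Unitary.mul_star_self_of_mem hT, hne⟩
  intro Y _ _ _ S J hJ
  have hJs : ∀ y, J (J.symm y) = y := J.apply_symm_apply
  -- the equivalent norm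
  let q : H → ℝ := fun y => ‖J y‖
  have hq : R289.NH.EqN q ((‖(J.symm : Y →L[ℂ] H)‖ + 1)⁻¹) ‖(J : H →L[ℂ] Y)‖ := by
    refine ⟨?_, ?_, ?_, ?_, by positivity⟩
    · intro x y
      show ‖J (x + y)‖ ≤ ‖J x‖ + ‖J y‖
      rw [map_add]; exact norm_add_le _ _
    · intro c x
      show ‖J (c • x)‖ = ‖c‖ * ‖J x‖
      rw [map_smul, norm_smul]
    · intro x
      rw [inv_mul_le_iff₀ (by positivity)]
      calc ‖x‖ = ‖J.symm (J x)‖ := by rw [J.symm_apply_apply]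
        _ ≤ ‖(J.symm : Y →L[ℂ] H)‖ * ‖J x‖ := (J.symm : Y →L[ℂ] H).le_opNorm _
        _ ≤ (‖(J.symm : Y →L[ℂ] H)‖ + 1) * ‖J x‖ := by
            gcongr; linarith
    · intro x
      exact (J : H →L[ℂ] Y).le_opNorm _
  obtain ⟨x, ℓ, h1, h2, h3⟩ := R289.NH.exists_dense hq hU hr
  have hxne : x ≠ 0 := by
    rintro rfl
    rw [inner_zero_right] at h1
    exact zero_ne_one h1
  have hqx : 0 < ‖J x‖ := hq.qpos hxne
  have hqc : ((‖J x‖ : ℝ) : ℂ) ≠ 0 := by exact_mod_cast hqx.ne'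
  have hSn : ∀ (n : ℕ) (y : Y), (S ^ n) y = J ((((r : ℂ) • T) ^ n) (J.symm y)) := by
    intro n
    induction n with
    | zero => intro y; simp
    | succ n ih =>
      intro y
      rw [pow_succ', pow_succ', mul_apply_eq_comp, mul_apply_eq_comp, ih, ← hJ, hJs]
  have hrT : ∀ (n : ℕ) (y : H), (((r : ℂ) • T) ^ n) y = ((r : ℂ) ^ n) • (T ^ n) y := by
    intro n y
    rw [smul_pow, smul_apply]
  let f : Y →L[ℂ] ℂ := ((‖J x‖ : ℝ) : ℂ) • ((innerSL ℂ ℓ).comp (J.symm : Y →L[ℂ] H))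
  have hf : ∀ y, f y = ((‖J x‖ : ℝ) : ℂ) * ⟪ℓ, J.symm y⟫_ℂ := fun y => rfl
  let x1 : Y := ((‖J x‖⁻¹ : ℝ) : ℂ) • J x
  have hx1 : ‖x1‖ = 1 := by
    show ‖((‖J x‖⁻¹ : ℝ) : ℂ) • J x‖ = 1
    rw [norm_smul, Complex.norm_real, norm_inv, norm_norm, inv_mul_cancel₀ hqx.ne']
  have hfx1 : f x1 = 1 := by
    show f (((‖J x‖⁻¹ : ℝ) : ℂ) • J x) = 1
    rw [hf, map_smul, J.symm_apply_apply, inner_smul_right, h1, mul_one, ← Complex.ofReal_mul,
      mul_inv_cancel₀ hqx.ne', Complex.ofReal_one]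
  have hfle : ‖f‖ ≤ 1 := by
    apply ContinuousLinearMap.opNorm_le_bound _ zero_le_one
    intro y
    rw [hf, norm_mul, Complex.norm_real, norm_norm, one_mul]
    have h4 := h2 (J.symm y)
    have h5 : q (J.symm y) = ‖y‖ := by
      show ‖J (J.symm y)‖ = ‖y‖
      rw [hJs]
    rw [h5] at h4
    calc ‖J x‖ * ‖⟪ℓ, J.symm y⟫_ℂ‖ = ‖⟪ℓ, J.symm y⟫_ℂ‖ * q x := mul_comm _ _
      _ ≤ ‖y‖ := h4
  have hfge : 1 ≤ ‖f‖ := by
    have h4 := f.le_opNorm x1
    rwa [hfx1, hx1, mul_one, norm_one] at h4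
  refine ⟨x1, f, hx1, le_antisymm hfle hfge, hfx1, ?_⟩
  have heq : (fun n : ℕ => f ((S ^ n) x1)) = fun n : ℕ => ⟪ℓ, (T ^ n) x⟫_ℂ * (r : ℂ) ^ n := by
    funext n
    show f ((S ^ n) (((‖J x‖⁻¹ : ℝ) : ℂ) • J x)) = _
    rw [map_smul, map_smul, hSn, J.symm_apply_apply, hf, J.symm_apply_apply, hrT,
      inner_smul_right, smul_eq_mul]
    have h6 : ((‖J x‖⁻¹ : ℝ) : ℂ) * ((‖J x‖ : ℝ) : ℂ) = 1 := by
      rw [← Complex.ofReal_mul, inv_mul_cancel₀ hqx.ne', Complex.ofReal_one]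
    linear_combination ((r : ℂ) ^ n * ⟪ℓ, (T ^ n) x⟫_ℂ) * h6
  rw [heq]
  exact h3

end Pool.Agent.Results.MP_f50dde_an.ScaledUnitary
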